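import Mathlib

set_option autoImplicit false

namespace Pool.Agent.Results.MP_7cc4cd_co.Three

open Finset

/-- The total domination number: least size of a set containing a neighbour of every vertex. -/
noncomputable def gammaT {V : Type} (G : SimpleGraph V) : ℕ :=
  sInf {m | ∃ S : Finset V, S.card = m ∧ ∀ v, ∃ s ∈ S, G.Adj v s}

/-- The matching number: largest number of pairwise disjoint edges. -/
noncomputable def matchingNumber {V : Type} (G : SimpleGraph V) : ℕ :=
  sSup {m | ∃ M : Finset (Sym2 V), M.card = m ∧ (∀ e ∈ M, e ∈ G.edgeSet) ∧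
    ∀ e ∈ M, ∀ f ∈ M, e ≠ f → ∀ v, v ∈ e → v ∉ f}

/-- `v` lies in a triangle. -/
def InTriangle {V : Type} (G : SimpleGraph V) (v : V) : Prop :=
  ∃ a b, G.Adj v a ∧ G.Adj v b ∧ G.Adj a b

def ed : List (ℕ × ℕ) := [(1, 2), (0, 3), (3, 4), (3, 5), (4, 5), (2, 6), (4, 6), (5, 6)]

def H : SimpleGraph (Fin 7) where
  Adj u v := (u.val, v.val) ∈ ed ∨ (v.val, u.val) ∈ ed
  symm := ⟨fun _ _ h => h.symm⟩
  loopless := ⟨by decide⟩

instance : DecidableRel H.Adj := fun u v =>
  inferInstanceAs (Decidable ((u.val, v.val) ∈ ed ∨ (v.val, u.val) ∈ ed))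

theorem mu_le : matchingNumber H ≤ 3 := by
  refine csSup_le' ?_
  rintro m ⟨M, rfl, h1, h2⟩
  have hc : (M.biUnion fun e => e.toFinset).card = ∑ e ∈ M, e.toFinset.card := by
    refine card_biUnion fun e he f hf hef => ?_
    rw [Function.onFun, disjoint_left]
    intro v hv hv'
    exact h2 e he f hf hef v (Sym2.mem_toFinset.1 hv) (Sym2.mem_toFinset.1 hv')
  have h3 : ∑ e ∈ M, e.toFinset.card = ∑ _e ∈ M, 2 :=
    sum_congr rfl fun e he => Sym2.card_toFinset_of_not_isDiag e (H.not_isDiag_of_mem_edgeSet (h1 e he))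
  have h4 := card_le_univ (M.biUnion fun e => e.toFinset)
  simp only [Fintype.card_fin] at h4
  simp only [sum_const, smul_eq_mul] at h3
  omega

theorem gt_ge : 4 ≤ gammaT H := by
  refine le_csInf ⟨7, univ, by simp, by decide⟩ ?_
  rintro m ⟨S, rfl, h⟩
  have : ∀ S : Finset (Fin 7), (∀ v, ∃ s ∈ S, H.Adj v s) → 4 ≤ S.card := by decide +kernel
  exact this S h

/-- A connected graph on seven vertices, all but three of them in a triangle, whose total
domination number exceeds its matching number. -/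
theorem result : ∃ (n : ℕ) (G : SimpleGraph (Fin n)), 4 ≤ n ∧ G.Connected ∧
    Set.ncard {v | ¬ InTriangle G v} ≤ 3 ∧ matchingNumber G < gammaT G := by
  refine ⟨7, H, by norm_num, by decide +kernel, ?_, by have := mu_le; have := gt_ge; omega⟩
  have : {v | ¬ InTriangle H v} ⊆ (({0, 1, 2} : Finset (Fin 7)) : Set (Fin 7)) := by
    intro v hv
    have : ∀ v : Fin 7, (¬ ∃ a b, H.Adj v a ∧ H.Adj v b ∧ H.Adj a b) →
        v ∈ ({0, 1, 2} : Finset (Fin 7)) := by decide +kernel
    exact this v hv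
  refine (Set.ncard_le_ncard this).trans ?_
  rw [Set.ncard_coe_finset]
  rfl

end Pool.Agent.Results.MP_7cc4cd_co.Three
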